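import Pool.Agent.H20.T4.Stm
import Pool.Agent.H48.TM4.Rec3

set_option linter.style.longLine false

/-! TM4 (MP_b6022c_nt): Dirichlet's theorem for integers modulo `2^v`. -/

namespace Pool.Agent.H48.T4

open Finset Pool.Agent.H9.TC Pool.Agent.H20.TM Pool.Agent.H20.T4

theorem dir : DIRStmt := by
  intro m x v B hB
  obtain ⟨t, h1, h2, h3⟩ := Pool.Agent.H48.TM4.dir m x v B
  refine ⟨t, h1, h2, fun i => ?_⟩
  obtain ⟨z, hz⟩ := h3 i
  refine ⟨t * x i - z * 2 ^ v, ?_, ?_⟩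
  · have e : (2 : ℤ) ^ v = 2 ^ (v - B i) * 2 ^ B i := by
      rw [← pow_add, Nat.sub_add_cancel (hB i)]
    have h4 : |(t : ℤ) * x i - z * 2 ^ v| * 2 ^ B i ≤ 2 ^ (v - B i) * 2 ^ B i := by
      rw [← e]
      exact hz
    exact le_of_mul_le_mul_right h4 (by positivity)
  · exact ⟨z, by ring⟩

end Pool.Agent.H48.T4
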