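import Pool.Agent.H20.T4.Stm

set_option linter.style.longLine false

/-! TM4 (MP_b6022c_nt): one Weyl step, Weyl sums of degree two, three and four. -/

namespace Pool.Agent.H48.T4

open Finset Pool.Agent.H9.TC Pool.Agent.H20.TM Pool.Agent.H20.T4

/-- translation of a finitely supported function -/
theorem sum_trans (h : ℤ → ℂ) (N' H s : ℕ) (hs : s ≤ H) (h0 : ∀ n : ℤ, ¬ (0 ≤ n ∧ n < N') → h n = 0) :
    ∑ m ∈ range (N' + H), h ((m : ℤ) - s) = ∑ n ∈ range N', h n := by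
  have e : N' + H = s + (N' + (H - s)) := by omega
  rw [e, sum_range_add, sum_range_add]
  have h1 : ∑ x ∈ range s, h ((x : ℤ) - s) = 0 := by
    refine sum_eq_zero fun x hx => h0 _ ?_
    have := mem_range.1 hx
    omega
  have h2 : ∑ x ∈ range (H - s), h (((s + (N' + x) : ℕ) : ℤ) - s) = 0 := by
    refine sum_eq_zero fun x _ => h0 _ ?_
    push_cast
    omega
  rw [h1, h2, zero_add, add_zero]
  refine sum_congr rfl fun x _ => ?_
  congr 1
  push_cast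
  ring

/-- the number of `j' < H` at distance less than `K` from `j` -/
theorem near_card (H K j : ℕ) :
    ((range H).filter (fun j' : ℕ => (j : ℤ) - j' < K ∧ (j' : ℤ) - j < K)).card ≤ 2 * K := by
  have : (range H).filter (fun j' : ℕ => (j : ℤ) - j' < K ∧ (j' : ℤ) - j < K) ⊆ Ico (j + 1 - K) (j + K) := by
    intro x hx
    simp only [mem_filter, mem_range, mem_Ico] at hx ⊢
    omega
  refine (card_le_card this).trans ?_
  rw [Nat.card_Ico]
  omega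

theorem corr_le (g : ℤ → ℂ) (hg : ∀ x, ‖g x‖ ≤ 1) (k M : ℕ) :
    ‖∑ n ∈ range M, g ((n : ℤ) + k) * (starRingEnd ℂ) (g n)‖ ≤ M := by
  refine (norm_sum_le _ _).trans ?_
  calc _ ≤ ∑ _n ∈ range M, (1 : ℝ) := by
        refine sum_le_sum fun n _ => ?_
        rw [norm_mul, RCLike.norm_conj]
        exact mul_le_one₀ (hg _) (norm_nonneg _) (hg _)
    _ = M := by simp

theorem ws : WSStmt := by
  intro g hg N H K0 δ hN hH hK0 hδ hc N' hN'
  have hNr : (0 : ℝ) < N := by exact_mod_cast hN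
  have hHr : (0 : ℝ) < H := by exact_mod_cast hH
  have hN'r : (N' : ℝ) ≤ N := by exact_mod_cast hN'
  have triv : ‖∑ n ∈ range N', g n‖ ≤ N := by
    calc ‖∑ n ∈ range N', g n‖ ≤ ∑ n ∈ range N', ‖g n‖ := norm_sum_le _ _
      _ ≤ ∑ _n ∈ range N', (1 : ℝ) := sum_le_sum fun n _ => hg n
      _ = N' := by simp
      _ ≤ N := hN'r
  -- the case of a long shift is trivial
  rcases le_or_gt N H with hNH | hHN
  · have hNH' : (N : ℝ) ≤ H := by exact_mod_cast hNH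
    have h1 : (1 : ℝ) ≤ H / N := by rwa [le_div_iff₀ hNr, one_mul]
    have h2 : (0 : ℝ) ≤ 6 * K0 / H := by positivity
    calc ‖∑ n ∈ range N', g n‖ ^ 2 ≤ (N : ℝ) ^ 2 := pow_le_pow_left₀ (norm_nonneg _) triv 2
      _ = (N : ℝ) ^ 2 * 1 := by ring
      _ ≤ (N : ℝ) ^ 2 * (2 * δ + 6 * K0 / H + H / N) :=
          mul_le_mul_of_nonneg_left (by linarith) (by positivity)
  have hHN' : (H : ℝ) ≤ N := by exact_mod_cast hHN.le
  classical
  set f : ℤ → ℂ := fun n => if 0 ≤ n ∧ n < N' then g n else 0 with hf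
  have f0 : ∀ n : ℤ, ¬ (0 ≤ n ∧ n < N') → f n = 0 := fun n hn => by rw [hf]; exact if_neg hn
  have f1 : ∀ n : ℤ, (0 ≤ n ∧ n < N') → f n = g n := fun n hn => by rw [hf]; exact if_pos hn
  set S : ℂ := ∑ n ∈ range N', g n with hS
  have hSf : ∑ n ∈ range N', f n = S := by
    refine sum_congr rfl fun n hn => f1 _ ?_
    have := mem_range.1 hn
    omega
  -- sums over a window
  have e1 : (H : ℂ) * S = ∑ m ∈ range (N' + H), ∑ j ∈ range H, f ((m : ℤ) - H + j) := by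
    rw [sum_comm]
    have : ∀ j ∈ range H, ∑ m ∈ range (N' + H), f ((m : ℤ) - H + j) = S := by
      intro j hj
      have hj' := mem_range.1 hj
      rw [← hSf, ← sum_trans f N' H (H - j) (by omega) f0]
      refine sum_congr rfl fun m _ => ?_
      congr 1
      rw [Nat.cast_sub hj'.le]
      ring
    rw [sum_congr rfl this, sum_const, card_range, nsmul_eq_mul]
  -- the correlations
  have hcorr : ∀ j j' : ℕ, j' ≤ j → j < H →
      ‖∑ m ∈ range (N' + H), f ((m : ℤ) - H + j) * (starRingEnd ℂ) (f ((m : ℤ) - H + j'))‖ ≤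
        (if (j : ℤ) - j' < K0 ∧ (j' : ℤ) - j < K0 then (N : ℝ) else 0) + δ * N := by
    intro j j' hjj hj
    have e2 : ∑ m ∈ range (N' + H), f ((m : ℤ) - H + j) * (starRingEnd ℂ) (f ((m : ℤ) - H + j')) =
        ∑ n ∈ range (N' - (j - j')), g ((n : ℤ) + (j - j' : ℕ)) * (starRingEnd ℂ) (g n) := by
      have h3 := sum_trans (fun n => f (n + (j - j' : ℕ)) * (starRingEnd ℂ) (f n)) N' H (H - j')
        (by omega) (fun n hn => by simp only [f0 n hn, map_zero, mul_zero])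
      have h4 : ∑ m ∈ range (N' + H), f ((m : ℤ) - H + j) * (starRingEnd ℂ) (f ((m : ℤ) - H + j')) =
          ∑ m ∈ range (N' + H), (fun n => f (n + (j - j' : ℕ)) * (starRingEnd ℂ) (f n)) ((m : ℤ) - (H - j' : ℕ)) := by
        refine sum_congr rfl fun m _ => ?_
        have h5 : (m : ℤ) - (H - j' : ℕ) = (m : ℤ) - H + j' := by
          rw [Nat.cast_sub (by omega : j' ≤ H)]; ring
        have h6 : (m : ℤ) - H + j' + (j - j' : ℕ) = (m : ℤ) - H + j := by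
          rw [Nat.cast_sub hjj]; ring
        simp only [h5, h6]
      rw [h4, h3]
      rcases le_or_gt (j - j') N' with h7 | h7
      · have e3 : N' = (N' - (j - j')) + (j - j') := by omega
        conv_lhs => rw [e3]
        rw [sum_range_add]
        have h8 : ∑ x ∈ range (j - j'), (fun n => f (n + (j - j' : ℕ)) * (starRingEnd ℂ) (f n))
            ((N' - (j - j') + x : ℕ) : ℤ) = 0 := by
          refine sum_eq_zero fun x _ => ?_
          simp only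
          rw [f0, zero_mul]
          omega
        rw [h8, add_zero]
        refine sum_congr rfl fun n hn => ?_
        have := mem_range.1 hn
        rw [f1, f1]
        · omega
        · omega
      · rw [Nat.sub_eq_zero_of_le h7.le, range_zero, sum_empty]
        refine sum_eq_zero fun x hx => ?_
        have := mem_range.1 hx
        rw [f0, zero_mul]
        omega
    rw [e2]
    split_ifs with h9
    · have h10 := corr_le g hg (j - j') (N' - (j - j'))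
      have h11 : ((N' - (j - j') : ℕ) : ℝ) ≤ N := by
        refine le_trans ?_ hN'r
        exact_mod_cast Nat.sub_le _ _
      have : 0 ≤ δ * N := by positivity
      linarith
    · rw [zero_add]
      refine hc (j - j') ?_ ?_ _ ?_
      · omega
      · omega
      · omega
  have hcorr2 : ∀ j ∈ range H, ∀ j' ∈ range H,
      ‖∑ m ∈ range (N' + H), f ((m : ℤ) - H + j) * (starRingEnd ℂ) (f ((m : ℤ) - H + j'))‖ ≤
        (if (j : ℤ) - j' < K0 ∧ (j' : ℤ) - j < K0 then (N : ℝ) else 0) + δ * N := by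
    intro j hj j' hj'
    rcases le_total j' j with h | h
    · exact hcorr j j' h (mem_range.1 hj)
    · have h3 := hcorr j' j h (mem_range.1 hj')
      have h4 : ∑ m ∈ range (N' + H), f ((m : ℤ) - H + j) * (starRingEnd ℂ) (f ((m : ℤ) - H + j')) =
          (starRingEnd ℂ) (∑ m ∈ range (N' + H), f ((m : ℤ) - H + j') * (starRingEnd ℂ) (f ((m : ℤ) - H + j))) := by
        rw [map_sum]
        refine sum_congr rfl fun m _ => ?_
        rw [map_mul, Complex.conj_conj, mul_comm]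
      rw [h4, RCLike.norm_conj]
      refine h3.trans (le_of_eq ?_)
      congr 1
      exact if_congr and_comm rfl rfl
  -- Cauchy-Schwarz
  have q1 : ∀ m : ℕ, ((‖∑ j ∈ range H, f ((m : ℤ) - H + j)‖ ^ 2 : ℝ) : ℂ) =
      ∑ j ∈ range H, ∑ j' ∈ range H, f ((m : ℤ) - H + j) * (starRingEnd ℂ) (f ((m : ℤ) - H + j')) := by
    intro m
    have := Complex.mul_conj (∑ j ∈ range H, f ((m : ℤ) - H + j))
    rw [Complex.normSq_eq_norm_sq] at this
    rw [← this, map_sum, sum_mul_sum]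
  have q2 : ((∑ m ∈ range (N' + H), ‖∑ j ∈ range H, f ((m : ℤ) - H + j)‖ ^ 2 : ℝ) : ℂ) =
      ∑ j ∈ range H, ∑ j' ∈ range H, ∑ m ∈ range (N' + H),
        f ((m : ℤ) - H + j) * (starRingEnd ℂ) (f ((m : ℤ) - H + j')) := by
    rw [Complex.ofReal_sum, sum_congr rfl fun m _ => q1 m, sum_comm]
    refine sum_congr rfl fun j _ => ?_
    rw [sum_comm]
  have q3 : ∑ m ∈ range (N' + H), ‖∑ j ∈ range H, f ((m : ℤ) - H + j)‖ ^ 2 ≤
      (H : ℝ) * (2 * K0 * N + H * (δ * N)) := by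
    have : ∑ m ∈ range (N' + H), ‖∑ j ∈ range H, f ((m : ℤ) - H + j)‖ ^ 2 =
        ‖∑ j ∈ range H, ∑ j' ∈ range H, ∑ m ∈ range (N' + H),
          f ((m : ℤ) - H + j) * (starRingEnd ℂ) (f ((m : ℤ) - H + j'))‖ := by
      rw [← q2, Complex.norm_real, Real.norm_eq_abs, abs_of_nonneg]
      exact sum_nonneg fun m _ => by positivity
    rw [this]
    refine (norm_sum_le _ _).trans ((sum_le_sum fun j _ => norm_sum_le _ _).trans
      ((sum_le_sum fun j hj => sum_le_sum fun j' hj' => hcorr2 j hj j' hj').trans ?_))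
    have h5 : ∀ j ∈ range H, ∑ j' ∈ range H,
        ((if (j : ℤ) - j' < K0 ∧ (j' : ℤ) - j < K0 then (N : ℝ) else 0) + δ * N) ≤
          2 * K0 * N + H * (δ * N) := by
      intro j _
      rw [sum_add_distrib, sum_const, card_range, nsmul_eq_mul, ← sum_filter, sum_const,
        nsmul_eq_mul]
      have h6 : (((range H).filter (fun j' : ℕ => (j : ℤ) - j' < K0 ∧ (j' : ℤ) - j < K0)).card : ℝ) ≤
          2 * K0 := by exact_mod_cast near_card H K0 j
      have h7 := mul_le_mul_of_nonneg_right h6 hNr.le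
      exact add_le_add h7 le_rfl
    refine (sum_le_sum h5).trans ?_
    rw [sum_const, card_range, nsmul_eq_mul]
  have q4 : ((H : ℝ) * ‖S‖) ^ 2 ≤ (N' + H) * ((H : ℝ) * (2 * K0 * N + H * (δ * N))) := by
    have h7 : (H : ℝ) * ‖S‖ ≤ ∑ m ∈ range (N' + H), ‖∑ j ∈ range H, f ((m : ℤ) - H + j)‖ := by
      have : (H : ℝ) * ‖S‖ = ‖(H : ℂ) * S‖ := by rw [norm_mul, Complex.norm_natCast]
      rw [this, e1]
      exact norm_sum_le _ _
    have h8 := sq_sum_le_card_mul_sum_sq (s := range (N' + H))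
      (f := fun m => ‖∑ j ∈ range H, f ((m : ℤ) - H + j)‖)
    rw [card_range] at h8
    push_cast at h8
    refine (pow_le_pow_left₀ (by positivity) h7 2).trans (h8.trans ?_)
    exact mul_le_mul_of_nonneg_left q3 (by positivity)
  have q5 : (H : ℝ) ^ 2 * ‖S‖ ^ 2 ≤ (H : ℝ) ^ 2 * ((N : ℝ) ^ 2 * (2 * δ + 4 * K0 / H)) := by
    have h9 : (H : ℝ) ^ 2 * ((N : ℝ) ^ 2 * (2 * δ + 4 * K0 / H)) =
        (2 * N) * ((H : ℝ) * (2 * K0 * N + H * (δ * N))) := by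
      field_simp
      ring
    rw [h9, ← mul_pow]
    refine q4.trans (mul_le_mul_of_nonneg_right (by linarith) (by positivity))
  have q6 := le_of_mul_le_mul_left q5 (by positivity)
  refine q6.trans (mul_le_mul_of_nonneg_left ?_ (by positivity))
  have h10 : 0 ≤ (H : ℝ) / N := by positivity
  have h11 : (4 : ℝ) * K0 / H ≤ 6 * K0 / H := by
    gcongr
    norm_num
  linarith

/-- the trivial bound -/
theorem sum_triv (F : ℕ → ℝ) (N N' : ℕ) (h : N' ≤ N) : ‖∑ n ∈ range N', ee (F n)‖ ≤ N := by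
  refine ((norm_sum_le _ _).trans (sum_le_sum fun n _ => (f2_norm_ee _).le)).trans ?_
  simpa using (by exact_mod_cast h : (N' : ℝ) ≤ N)

theorem w2 : W2Stmt := by
  intro t2 t1 t0 N H K0 η hN hH hK0 hη hk N' hN'
  have hNr : (0 : ℝ) < N := by exact_mod_cast hN
  have key := ws (fun x : ℤ => ee (t2 * (x : ℝ) ^ 2 + t1 * x + t0)) (fun x => (f2_norm_ee _).le)
    N H K0 (1 / (2 * η * N)) hN hH hK0 (by positivity) ?_ N' hN'
  · have e : 2 * (1 / (2 * η * (N : ℝ))) = 1 / (η * N) := by field_simp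
    rw [e] at key
    exact_mod_cast key
  intro k hk1 hk2 M _
  have e : ∀ n ∈ range M, ee (t2 * (((n : ℤ) + (k : ℤ) : ℤ) : ℝ) ^ 2 + t1 * (((n : ℤ) + (k : ℤ) : ℤ) : ℝ) + t0) *
      (starRingEnd ℂ) (ee (t2 * (((n : ℤ)) : ℝ) ^ 2 + t1 * ((n : ℤ) : ℝ) + t0)) =
      ee ((2 * k * t2) * n + (t2 * (k : ℝ) ^ 2 + t1 * k)) := by
    intro n _
    rw [← f2_ee_neg, ← f2_ee_add]
    congr 1
    push_cast
    ring
  have h1 := lin_sum_le M (2 * k * t2) (t2 * (k : ℝ) ^ 2 + t1 * k)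
  have h2 := hk k hk1 hk2
  rw [sum_congr rfl e]
  have h3 : 1 / (2 * η * (N : ℝ)) * N = 1 / (2 * η) := by field_simp
  rw [h3, le_div_iff₀ (by positivity)]
  have h4 := norm_nonneg (∑ n ∈ range M, ee ((2 * k * t2) * (n : ℝ) + (t2 * (k : ℝ) ^ 2 + t1 * k)))
  nlinarith

theorem w3 : W3Stmt := by
  intro t3 t2 t1 t0 N H K0 η hN hH hK0 hη hk N' hN'
  have hNr : (0 : ℝ) < N := by exact_mod_cast hN
  have hHr : (0 : ℝ) < H := by exact_mod_cast hH
  set A : ℝ := 1 / (η * N) + 6 * K0 / H + H / N with hA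
  have hA0 : 0 < A := by positivity
  have triv := sum_triv (fun n => t3 * (n : ℝ) ^ 3 + t2 * (n : ℝ) ^ 2 + t1 * n + t0) N N' hN'
  rcases le_or_gt 1 A with h1 | h1
  · calc _ ≤ (N : ℝ) ^ 4 := pow_le_pow_left₀ (norm_nonneg _) triv 4
      _ = (N : ℝ) ^ 4 * 1 := by ring
      _ ≤ (N : ℝ) ^ 4 * (10 * A) := mul_le_mul_of_nonneg_left (by linarith) (by positivity)
  have hs : 0 < Real.sqrt A := Real.sqrt_pos.2 hA0
  have hs2 : Real.sqrt A ^ 2 = A := Real.sq_sqrt hA0.le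
  have hs1 : Real.sqrt A ≤ 1 := by
    rw [Real.sqrt_le_left (by norm_num)]
    linarith
  have key := ws (fun x : ℤ => ee (t3 * (x : ℝ) ^ 3 + t2 * (x : ℝ) ^ 2 + t1 * x + t0))
    (fun x => (f2_norm_ee _).le) N H K0 (Real.sqrt A) hN hH hK0 hs.le ?_ N' hN'
  · have h2 : ‖∑ n ∈ range N', ee (t3 * (n : ℝ) ^ 3 + t2 * (n : ℝ) ^ 2 + t1 * n + t0)‖ ^ 2 ≤
        (N : ℝ) ^ 2 * (2 * Real.sqrt A + A) := by
      have : (2 : ℝ) * Real.sqrt A + 6 * K0 / H + H / N ≤ 2 * Real.sqrt A + A := by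
        rw [hA]
        have : 0 < 1 / (η * (N : ℝ)) := by positivity
        linarith
      refine le_trans ?_ (mul_le_mul_of_nonneg_left this (by positivity))
      exact_mod_cast key
    calc _ = (‖∑ n ∈ range N', ee (t3 * (n : ℝ) ^ 3 + t2 * (n : ℝ) ^ 2 + t1 * n + t0)‖ ^ 2) ^ 2 := by
          ring
      _ ≤ ((N : ℝ) ^ 2 * (2 * Real.sqrt A + A)) ^ 2 := pow_le_pow_left₀ (by positivity) h2 2
      _ = (N : ℝ) ^ 4 * (2 * Real.sqrt A + A) ^ 2 := by ring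
      _ ≤ (N : ℝ) ^ 4 * (10 * A) := by
          refine mul_le_mul_of_nonneg_left ?_ (by positivity)
          generalize Real.sqrt A = s at hs hs1 hs2
          rw [← hs2]
          have e5 : (2 * s + s ^ 2) ^ 2 = s ^ 2 * (2 + s) ^ 2 := by ring
          rw [e5]
          have : (2 + s) ^ 2 ≤ 10 := by nlinarith
          nlinarith [sq_nonneg s]
  intro k hk1 hk2 M hM
  have e : ∀ n ∈ range M, ee (t3 * (((n : ℤ) + (k : ℤ) : ℤ) : ℝ) ^ 3 + t2 * (((n : ℤ) + (k : ℤ) : ℤ) : ℝ) ^ 2 +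
      t1 * (((n : ℤ) + (k : ℤ) : ℤ) : ℝ) + t0) *
      (starRingEnd ℂ) (ee (t3 * ((n : ℤ) : ℝ) ^ 3 + t2 * ((n : ℤ) : ℝ) ^ 2 + t1 * ((n : ℤ) : ℝ) + t0)) =
      ee ((3 * k * t3) * (n : ℝ) ^ 2 + (3 * (k : ℝ) ^ 2 * t3 + 2 * k * t2) * n +
        (t3 * (k : ℝ) ^ 3 + t2 * (k : ℝ) ^ 2 + t1 * k)) := by
    intro n _
    rw [← f2_ee_neg, ← f2_ee_add]
    congr 1
    push_cast
    ring
  rw [sum_congr rfl e]
  have h5 := w2 (3 * k * t3) (3 * (k : ℝ) ^ 2 * t3 + 2 * k * t2)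
    (t3 * (k : ℝ) ^ 3 + t2 * (k : ℝ) ^ 2 + t1 * k) N H K0 η hN hH hK0 hη (fun k2 h6 h7 => by
      have := hk k k2 hk1 hk2 h6 h7
      rwa [show (2 : ℝ) * k2 * (3 * k * t3) = 6 * k * k2 * t3 by ring]) M hM
  have h6 : ‖∑ n ∈ range M, ee ((3 * k * t3) * (n : ℝ) ^ 2 + (3 * (k : ℝ) ^ 2 * t3 + 2 * k * t2) * n +
        (t3 * (k : ℝ) ^ 3 + t2 * (k : ℝ) ^ 2 + t1 * k))‖ ^ 2 ≤ (Real.sqrt A * N) ^ 2 := by
    rw [mul_pow, hs2, mul_comm A]
    exact h5
  exact le_of_sq_le_sq h6 (by positivity)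

theorem w4 : W4Stmt := by
  intro t4 t3 t2 t1 t0 N H K0 η hN hH hK0 hη hk N' hN'
  have hNr : (0 : ℝ) < N := by exact_mod_cast hN
  have hHr : (0 : ℝ) < H := by exact_mod_cast hH
  set A : ℝ := 1 / (η * N) + 6 * K0 / H + H / N with hA
  have hA0 : 0 < A := by positivity
  have triv := sum_triv (fun n => t4 * (n : ℝ) ^ 4 + t3 * (n : ℝ) ^ 3 + t2 * (n : ℝ) ^ 2 + t1 * n + t0)
    N N' hN'
  rcases le_or_gt 1 (10 * A) with h1 | h1
  · calc _ ≤ (N : ℝ) ^ 8 := pow_le_pow_left₀ (norm_nonneg _) triv 8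
      _ = (N : ℝ) ^ 8 * 1 := by ring
      _ ≤ (N : ℝ) ^ 8 * (1300 * A) := mul_le_mul_of_nonneg_left (by linarith) (by positivity)
  set D : ℝ := Real.sqrt (Real.sqrt (10 * A)) with hD
  have hD0 : 0 < D := Real.sqrt_pos.2 (Real.sqrt_pos.2 (by positivity))
  have hD2 : D ^ 4 = 10 * A := by
    rw [show D ^ 4 = (D ^ 2) ^ 2 by ring, hD, Real.sq_sqrt (Real.sqrt_nonneg _),
      Real.sq_sqrt (by positivity)]
  have hD1 : D ≤ 1 := by
    by_contra hcon
    push Not at hcon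
    have : 1 < D ^ 4 := one_lt_pow₀ hcon (by norm_num)
    linarith
  have key := ws (fun x : ℤ => ee (t4 * (x : ℝ) ^ 4 + t3 * (x : ℝ) ^ 3 + t2 * (x : ℝ) ^ 2 + t1 * x + t0))
    (fun x => (f2_norm_ee _).le) N H K0 D hN hH hK0 hD0.le ?_ N' hN'
  · have h2 : ‖∑ n ∈ range N', ee (t4 * (n : ℝ) ^ 4 + t3 * (n : ℝ) ^ 3 + t2 * (n : ℝ) ^ 2 + t1 * n + t0)‖ ^ 2 ≤
        (N : ℝ) ^ 2 * (2 * D + A) := by
      have : (2 : ℝ) * D + 6 * K0 / H + H / N ≤ 2 * D + A := by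
        rw [hA]
        have : 0 < 1 / (η * (N : ℝ)) := by positivity
        linarith
      refine le_trans ?_ (mul_le_mul_of_nonneg_left this (by positivity))
      exact_mod_cast key
    calc _ = (‖∑ n ∈ range N', ee (t4 * (n : ℝ) ^ 4 + t3 * (n : ℝ) ^ 3 + t2 * (n : ℝ) ^ 2 + t1 * n + t0)‖ ^ 2) ^ 4 := by
          ring
      _ ≤ ((N : ℝ) ^ 2 * (2 * D + A)) ^ 4 := pow_le_pow_left₀ (by positivity) h2 4
      _ = (N : ℝ) ^ 8 * (2 * D + A) ^ 4 := by ring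
      _ ≤ (N : ℝ) ^ 8 * (1300 * A) := by
          refine mul_le_mul_of_nonneg_left ?_ (by positivity)
          have h3 : D ^ 4 ≤ D := by
            calc D ^ 4 = D ^ 3 * D := by ring
              _ ≤ 1 * D := mul_le_mul_of_nonneg_right (pow_le_one₀ hD0.le hD1) hD0.le
              _ = D := one_mul D
          have h4 : 2 * D + A ≤ 3 * D := by linarith
          calc (2 * D + A) ^ 4 ≤ (3 * D) ^ 4 := pow_le_pow_left₀ (by positivity) h4 4
            _ = 81 * D ^ 4 := by ring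
            _ ≤ 1300 * A := by rw [hD2]; linarith
  intro k hk1 hk2 M hM
  have e : ∀ n ∈ range M, ee (t4 * (((n : ℤ) + (k : ℤ) : ℤ) : ℝ) ^ 4 + t3 * (((n : ℤ) + (k : ℤ) : ℤ) : ℝ) ^ 3 +
      t2 * (((n : ℤ) + (k : ℤ) : ℤ) : ℝ) ^ 2 + t1 * (((n : ℤ) + (k : ℤ) : ℤ) : ℝ) + t0) *
      (starRingEnd ℂ) (ee (t4 * ((n : ℤ) : ℝ) ^ 4 + t3 * ((n : ℤ) : ℝ) ^ 3 + t2 * ((n : ℤ) : ℝ) ^ 2 +
        t1 * ((n : ℤ) : ℝ) + t0)) =
      ee ((4 * k * t4) * (n : ℝ) ^ 3 + (6 * (k : ℝ) ^ 2 * t4 + 3 * k * t3) * (n : ℝ) ^ 2 +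
        (4 * (k : ℝ) ^ 3 * t4 + 3 * (k : ℝ) ^ 2 * t3 + 2 * k * t2) * n +
        (t4 * (k : ℝ) ^ 4 + t3 * (k : ℝ) ^ 3 + t2 * (k : ℝ) ^ 2 + t1 * k)) := by
    intro n _
    rw [← f2_ee_neg, ← f2_ee_add]
    congr 1
    push_cast
    ring
  rw [sum_congr rfl e]
  have h5 := w3 (4 * k * t4) (6 * (k : ℝ) ^ 2 * t4 + 3 * k * t3)
    (4 * (k : ℝ) ^ 3 * t4 + 3 * (k : ℝ) ^ 2 * t3 + 2 * k * t2)
    (t4 * (k : ℝ) ^ 4 + t3 * (k : ℝ) ^ 3 + t2 * (k : ℝ) ^ 2 + t1 * k) N H K0 η hN hH hK0 hη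
    (fun k2 k3 h6 h7 h8 h9 => by
      have := hk k k2 k3 hk1 hk2 h6 h7 h8 h9
      rwa [show (6 : ℝ) * k2 * k3 * (4 * k * t4) = 24 * k * k2 * k3 * t4 by ring]) M hM
  have h6 : ‖∑ n ∈ range M, ee ((4 * k * t4) * (n : ℝ) ^ 3 + (6 * (k : ℝ) ^ 2 * t4 + 3 * k * t3) * (n : ℝ) ^ 2 +
        (4 * (k : ℝ) ^ 3 * t4 + 3 * (k : ℝ) ^ 2 * t3 + 2 * k * t2) * n +
        (t4 * (k : ℝ) ^ 4 + t3 * (k : ℝ) ^ 3 + t2 * (k : ℝ) ^ 2 + t1 * k))‖ ^ 4 ≤ (D * N) ^ 4 := by
    rw [mul_pow, hD2, mul_comm (10 * A)]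
    exact h5
  exact le_of_pow_le_pow_left₀ (by norm_num) (by positivity) h6

end Pool.Agent.H48.T4
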