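import Pool.Agent.H48.TM4.Gap
import Pool.Agent.H48.T4.WS
import Pool.Agent.H9.TC.NCom
import Pool.Agent.H9.TC.Basic

set_option linter.style.longLine false

/-!
# Project TM4 (MP_b6022c_nt), row N4: direction of the lowest window
-/

namespace Pool.Agent.H48.T4

open Finset Pool.Agent.H9.TC Pool.Agent.H20.TM Pool.Agent.H20.T4 Pool.Agent.H48.TM4

theorem nn_eq_abs {x : ℝ} (h : |x| < 1 / 2) : nn x = |x| := by
  have h1 := abs_lt.1 h
  have : round x = 0 := round_eq_zero_iff.2 ⟨by linarith [h1.1], h1.2⟩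
  unfold nn
  rw [this]
  simp

theorem n4 (h0 : M0Stmt) (hg : GStmt) : Pool.Agent.H20.T4.N4Stmt := by
  intro q c L g9 hq1 hc1 hL
  refine ⟨(4 * 4 ^ (L + g9) + 1) * (4 * 2 ^ (L + g9)) * (1 + 3 + q),
    2 * (L + g9) + L + g9 + 20 + c + q, ?_⟩
  intro p hp v1 uf a hv1 ha d e f
  have e1 : (12 * q + 12) * p = 12 * (q * p) + 12 * p := by ring
  have e2 : (2 * q + 2) * p = 2 * (q * p) + 2 * p := by ring
  have hqp : p ≤ q * p := Nat.le_mul_of_pos_left p (by omega)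
  have hp1 : 1 ≤ p := by omega
  apply ncom h0 hg q 0 (by omega) hq1 ∅ 1 1 L g9 3 (by norm_num) p uf a le_rfl le_rfl
    (by norm_num) (by omega) hL
  · simp
  · simp only [card_empty, Nat.cast_zero, zero_mul, zero_div]
    positivity
  intro K hK hKL t ht htT b _
  have hK2 := nK L g9 K hK
  have hK0 : K ≠ 0 := by
    rintro rfl
    exact hKL (dvd_zero _)
  have hphase : ∀ n : ℕ, (t : ℝ) * ((∑ i ∈ (∅ : Finset (Fin q)), (b i : ℝ) * (((fun _ => 0 : Fin q → ℤ) i : ℤ) : ℝ)) / 2 ^ 1 +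
      (K : ℝ) * (((2 : ℤ) ^ v1 * dqua c d e f n : ℤ) : ℝ) / 2 ^ (uf + L)) =
      ((4 * c * t * K * 2 ^ v1 : ℤ) : ℝ) / 2 ^ (uf + L) * (n : ℝ) ^ 3 +
      ((t : ℝ) * K * 2 ^ v1 * (3 * d) / 2 ^ (uf + L)) * (n : ℝ) ^ 2 +
      ((t : ℝ) * K * 2 ^ v1 * (2 * e) / 2 ^ (uf + L)) * n +
      ((t : ℝ) * K * 2 ^ v1 * f / 2 ^ (uf + L)) := by
    intro n
    rw [sum_empty]
    unfold dqua
    push_cast
    ring
  simp only [hphase]
  have key := w3 (((4 * c * t * K * 2 ^ v1 : ℤ) : ℝ) / 2 ^ (uf + L))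
    ((t : ℝ) * K * 2 ^ v1 * (3 * d) / 2 ^ (uf + L)) ((t : ℝ) * K * 2 ^ v1 * (2 * e) / 2 ^ (uf + L))
    ((t : ℝ) * K * 2 ^ v1 * f / 2 ^ (uf + L)) (2 ^ a) (2 ^ (5 * p)) 1
    ((2 : ℝ) ^ v1 / 2 ^ (uf + L)) Nat.one_le_two_pow Nat.one_le_two_pow le_rfl
    (by positivity) (fun k1 k2 h1 h2 h3 h4 => by
      set X : ℤ := 24 * c * k1 * k2 * t * K with hX
      have hXe : 6 * (k1 : ℝ) * k2 * (((4 * c * t * K * 2 ^ v1 : ℤ) : ℝ) / 2 ^ (uf + L)) =
          (X : ℝ) * 2 ^ v1 / 2 ^ (uf + L) := by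
        rw [hX]; push_cast; ring
      have hXn : X ≠ 0 := by
        rw [hX]
        have a1 : (c : ℤ) ≠ 0 := by exact_mod_cast (by omega : c ≠ 0)
        have a2 : (k1 : ℤ) ≠ 0 := by exact_mod_cast (by omega : k1 ≠ 0)
        have a3 : (k2 : ℤ) ≠ 0 := by exact_mod_cast (by omega : k2 ≠ 0)
        positivity
      have hX1 : (1 : ℝ) ≤ |(X : ℝ)| := by
        have : (1 : ℤ) ≤ |X| := Int.one_le_abs hXn
        exact_mod_cast this
      have hX2 : |(X : ℝ)| ≤ 2 ^ (5 + c + 5 * p + 5 * p + (2 * q + 2) * p + (2 * (L + g9) + 1)) := by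
        rw [hX]
        push_cast
        rw [pow_add, pow_add, pow_add, pow_add, pow_add]
        have b1 : |(24 : ℝ)| ≤ 2 ^ 5 := by norm_num
        have b2 : |(c : ℝ)| ≤ 2 ^ c := by
          rw [abs_of_nonneg (Nat.cast_nonneg c)]
          exact_mod_cast (Nat.lt_two_pow_self (n := c)).le
        have b3 : |(k1 : ℝ)| ≤ 2 ^ (5 * p) := by
          rw [abs_of_nonneg (Nat.cast_nonneg k1)]
          exact_mod_cast h2.le
        have b4 : |(k2 : ℝ)| ≤ 2 ^ (5 * p) := by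
          rw [abs_of_nonneg (Nat.cast_nonneg k2)]
          exact_mod_cast h4.le
        have b5 : |(t : ℝ)| ≤ 2 ^ ((2 * q + 2) * p) := by exact_mod_cast htT.le
        have b6 : |(K : ℝ)| ≤ 2 ^ (2 * (L + g9) + 1) := by exact_mod_cast hK2
        exact mulb (mulb (mulb (mulb (mulb b1 b2) b3) b4) b5) b6
      rw [hXe]
      have h5 : |(X : ℝ) * 2 ^ v1 / 2 ^ (uf + L)| = |(X : ℝ)| * 2 ^ v1 / 2 ^ (uf + L) := by
        rw [abs_div, abs_mul, abs_of_pos (by positivity : (0 : ℝ) < 2 ^ v1),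
          abs_of_pos (by positivity : (0 : ℝ) < 2 ^ (uf + L))]
      rw [nn_eq_abs, h5]
      · refine div_le_div_of_nonneg_right ?_ (by positivity)
        nlinarith [show (0 : ℝ) < 2 ^ v1 by positivity]
      · rw [h5, div_lt_iff₀ (by positivity)]
        calc |(X : ℝ)| * 2 ^ v1 ≤
            2 ^ (5 + c + 5 * p + 5 * p + (2 * q + 2) * p + (2 * (L + g9) + 1)) * 2 ^ v1 := by gcongr
          _ = 2 ^ (5 + c + 5 * p + 5 * p + (2 * q + 2) * p + (2 * (L + g9) + 1) + v1) := by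
              rw [pow_add _ _ v1]
          _ < 2 ^ (uf + L - 1) := pow_lt_pow_right₀ (by norm_num) (by omega)
          _ = 1 / 2 * 2 ^ (uf + L) := by
              obtain ⟨m, hm⟩ : ∃ m, uf + L = m + 1 := ⟨uf + L - 1, by omega⟩
              rw [hm, Nat.add_sub_cancel, pow_succ]
              ring) (2 ^ a) le_rfl
  set x : ℝ := (1 / 2) ^ (5 * p) with hx
  have hx0 : 0 < x := by positivity
  have h3 : (1 : ℝ) / ((2 : ℝ) ^ v1 / 2 ^ (uf + L) * ((2 ^ a : ℕ) : ℝ)) ≤ x := by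
    push_cast
    rw [hx, one_div_pow]
    refine one_div_le_one_div_of_le (by positivity) ?_
    rw [div_mul_eq_mul_div, le_div_iff₀ (by positivity), ← pow_add, ← pow_add]
    exact pow_le_pow_right₀ (by norm_num) (by omega)
  have h4 : 6 * ((1 : ℕ) : ℝ) / ((2 ^ (5 * p) : ℕ) : ℝ) = 6 * x := by
    push_cast
    rw [hx, one_div_pow]
    ring
  have h5 : ((2 ^ (5 * p) : ℕ) : ℝ) / ((2 ^ a : ℕ) : ℝ) ≤ x := by
    push_cast
    rw [hx, one_div_pow, div_le_div_iff₀ (by positivity) (by positivity), ← pow_add, one_mul]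
    exact pow_le_pow_right₀ (by norm_num) (by omega)
  rw [h4] at key
  have h6 : x ≤ ((1 / 2 : ℝ) ^ ((2 * 0 + 1) * p)) ^ 4 := by
    rw [hx, ← pow_mul]
    exact pow_le_pow_of_le_one (by norm_num) (by norm_num) (by omega)
  refine le_of_pow_le_pow_left₀ (n := 4) (by norm_num) (by positivity) (key.trans ?_)
  push_cast
  push_cast at h3 h5
  calc ((2 : ℝ) ^ a) ^ 4 * (10 * (1 / ((2 : ℝ) ^ v1 / 2 ^ (uf + L) * (2 : ℝ) ^ a) + 6 * x +
        (2 : ℝ) ^ (5 * p) / (2 : ℝ) ^ a))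
      ≤ ((2 : ℝ) ^ a) ^ 4 * (80 * ((1 / 2 : ℝ) ^ ((2 * 0 + 1) * p)) ^ 4) := by
        refine mul_le_mul_of_nonneg_left ?_ (by positivity)
        linarith
    _ ≤ (3 * (1 / 2) ^ ((2 * 0 + 1) * p) * 2 ^ a) ^ 4 := by
        rw [mul_pow, mul_pow]
        have : 0 ≤ ((1 / 2 : ℝ) ^ ((2 * 0 + 1) * p)) ^ 4 * ((2 : ℝ) ^ a) ^ 4 := by positivity
        nlinarith

end Pool.Agent.H48.T4
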