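import Pool.Agent.H48.TM4.Gap
import Pool.Agent.H48.T4.WS
import Pool.Agent.H9.TC.NCom
import Pool.Agent.H9.TC.Basic

set_option linter.style.longLine false

/-!
# Project TM4 (MP_b6022c_nt), row N5: directions for the eliminations
-/

namespace Pool.Agent.H48.T4

open Finset Pool.Agent.H9.TC Pool.Agent.H20.TM Pool.Agent.H20.T4 Pool.Agent.H48.TM4

theorem ee_lip (x y : ℝ) : ‖ee x - ee y‖ ≤ 8 * |x - y| := by
  have h1 : ee x - ee y = ee y * (ee (x - y) - 1) := by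
    have : ee x = ee y * ee (x - y) := by rw [← f2_ee_add]; congr 1; ring
    rw [this]; ring
  rw [h1, norm_mul, f2_norm_ee, one_mul]
  have h2 : ee (x - y) = Complex.exp (Complex.I * ((2 * Real.pi * (x - y) : ℝ) : ℂ)) := by
    unfold ee; rw [mul_comm]
  rw [h2]
  refine (Real.norm_exp_I_mul_ofReal_sub_one_le (x := 2 * Real.pi * (x - y))).trans ?_
  rw [Real.norm_eq_abs, abs_mul, abs_of_pos (by positivity : (0 : ℝ) < 2 * Real.pi)]
  have h3 : 2 * Real.pi ≤ 8 := by linarith [Real.pi_le_four]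
  exact mul_le_mul_of_nonneg_right h3 (abs_nonneg _)

theorem sum_approx (N : ℕ) (x y : ℕ → ℝ) (ε : ℝ) (h : ∀ b < N, |x b - y b| ≤ ε) :
    ‖∑ b ∈ range N, ee (x b)‖ ≤ ‖∑ b ∈ range N, ee (y b)‖ + 8 * ε * N := by
  have h1 : ∑ b ∈ range N, ee (x b) =
      ∑ b ∈ range N, ee (y b) + ∑ b ∈ range N, (ee (x b) - ee (y b)) := by
    rw [← sum_add_distrib]
    exact sum_congr rfl fun b _ => by ring
  rw [h1]
  refine (norm_add_le _ _).trans (add_le_add le_rfl ?_)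
  refine (norm_sum_le _ _).trans ?_
  calc ∑ b ∈ range N, ‖ee (x b) - ee (y b)‖ ≤ ∑ _b ∈ range N, 8 * ε := by
        refine sum_le_sum fun b hb => (ee_lip _ _).trans ?_
        have := h b (mem_range.1 hb)
        linarith
    _ = 8 * ε * N := by rw [sum_const, card_range, nsmul_eq_mul]; ring

theorem sum_neg_ee (B : ℕ) (g : ℕ → ℝ) :
    ‖∑ b ∈ range B, ee (-g b)‖ = ‖∑ b ∈ range B, ee (g b)‖ := by
  have h1 : ∑ b ∈ range B, ee (-g b) = (starRingEnd ℂ) (∑ b ∈ range B, ee (g b)) := by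
    rw [map_sum]
    exact Finset.sum_congr rfl (fun b _ => Pool.Agent.H9.TC.ee_neg (g b))
  rw [h1, RCLike.norm_conj]

/-- lower bound for `nn` from the negation of `small` -/
theorem nn_of_not_small {v r σ : ℕ} {X : ℤ} (hσ : σ ≤ v + r)
    (h : ¬ small v ((2 : ℤ) ^ (v + r - σ)) X) : (2 : ℝ) ^ r / 2 ^ σ < nn ((X : ℝ) / 2 ^ v) := by
  by_contra hcon
  push Not at hcon
  refine h (small_of_nn ?_)
  refine hcon.trans (le_of_eq ?_)
  push_cast
  rw [div_eq_div_iff (by positivity) (by positivity), ← pow_add, ← pow_add]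
  congr 1
  omega

/-- quadratic sums with the quality of `Bad3` -/
theorem quad_sum (q p σ v : ℕ) (X : ℤ) (hσ : (60 * q + 60) * p ≤ σ) (hv : σ ≤ v)
    (h : ∀ k : ℕ, 1 ≤ k → k < 2 ^ ((4 * q + 3) * p) →
      ¬ small v ((2 : ℤ) ^ (v + (4 * q + 4) * p - σ)) (2 * k * X)) (t1 t0 : ℝ) :
    ‖∑ b ∈ range (2 ^ σ), ee ((X : ℝ) / 2 ^ v * (b : ℝ) ^ 2 + t1 * b + t0)‖ ≤
      3 * (1 / 2) ^ ((2 * q + 1) * p) * 2 ^ σ := by
  have e1 : (60 * q + 60) * p = 60 * (q * p) + 60 * p := by ring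
  have e2 : (4 * q + 3) * p = 4 * (q * p) + 3 * p := by ring
  have e3 : (4 * q + 4) * p = 4 * (q * p) + 4 * p := by ring
  have e4 : (2 * q + 1) * p = 2 * (q * p) + p := by ring
  have key := w2 ((X : ℝ) / 2 ^ v) t1 t0 (2 ^ σ) (2 ^ ((4 * q + 3) * p)) 1
    ((2 : ℝ) ^ ((4 * q + 4) * p) / 2 ^ σ) Nat.one_le_two_pow Nat.one_le_two_pow le_rfl
    (by positivity) (fun k hk1 hk2 => by
      have h1 := nn_of_not_small (by omega) (h k hk1 hk2)
      have h2 : 2 * (k : ℝ) * ((X : ℝ) / 2 ^ v) = ((2 * k * X : ℤ) : ℝ) / 2 ^ v := by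
        push_cast; ring
      rw [h2]
      exact h1.le) (2 ^ σ) le_rfl
  set x : ℝ := (1 / 2) ^ ((4 * q + 3) * p) with hx
  have hx0 : 0 < x := by positivity
  have h3 : (1 : ℝ) / ((2 : ℝ) ^ ((4 * q + 4) * p) / 2 ^ σ * ((2 ^ σ : ℕ) : ℝ)) ≤ x := by
    push_cast
    rw [div_mul_cancel₀ _ (by positivity), hx, one_div_pow]
    exact one_div_le_one_div_of_le (by positivity) (pow_le_pow_right₀ (by norm_num) (by omega))
  have h4 : 6 * ((1 : ℕ) : ℝ) / ((2 ^ ((4 * q + 3) * p) : ℕ) : ℝ) = 6 * x := by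
    push_cast
    rw [hx, one_div_pow]
    ring
  have h5 : ((2 ^ ((4 * q + 3) * p) : ℕ) : ℝ) / ((2 ^ σ : ℕ) : ℝ) ≤ x := by
    push_cast
    rw [hx, one_div_pow, div_le_div_iff₀ (by positivity) (by positivity), ← pow_add, one_mul]
    exact pow_le_pow_right₀ (by norm_num) (by omega)
  rw [h4] at key
  have h6 : x ≤ ((1 / 2 : ℝ) ^ ((2 * q + 1) * p)) ^ 2 := by
    rw [hx, ← pow_mul]
    exact pow_le_pow_of_le_one (by norm_num) (by norm_num) (by omega)
  have h7 : ‖∑ b ∈ range (2 ^ σ), ee ((X : ℝ) / 2 ^ v * (b : ℝ) ^ 2 + t1 * b + t0)‖ ^ 2 ≤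
      (3 * (1 / 2) ^ ((2 * q + 1) * p) * 2 ^ σ) ^ 2 := by
    refine key.trans ?_
    push_cast
    calc ((2 : ℝ) ^ σ) ^ 2 * (1 / ((2 : ℝ) ^ ((4 * q + 4) * p) / 2 ^ σ * (2 : ℝ) ^ σ) + 6 * x +
          (2 : ℝ) ^ ((4 * q + 3) * p) / (2 : ℝ) ^ σ)
        ≤ ((2 : ℝ) ^ σ) ^ 2 * (9 * ((1 / 2 : ℝ) ^ ((2 * q + 1) * p)) ^ 2) := by
          push_cast at h3 h5
          refine mul_le_mul_of_nonneg_left ?_ (by positivity)
          linarith
      _ = _ := by ring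
  exact (pow_le_pow_iff_left₀ (norm_nonneg _) (by positivity) two_ne_zero).1 h7

/-- linear sums -/
theorem lin_sum (q p σ v : ℕ) (X : ℤ) (hv : σ ≤ v)
    (h : ¬ small v ((2 : ℤ) ^ (v + (2 * q + 2) * p - σ)) X) (t0 : ℝ) :
    ‖∑ b ∈ range (2 ^ σ), ee ((X : ℝ) / 2 ^ v * b + t0)‖ ≤ (1 / 2) ^ ((2 * q + 1) * p) * 2 ^ σ := by
  have h1 := nn_of_not_small (by omega) h
  have h2 := lin_sum_le (2 ^ σ) ((X : ℝ) / 2 ^ v) t0
  have h3 := norm_nonneg (∑ b ∈ range (2 ^ σ), ee ((X : ℝ) / 2 ^ v * b + t0))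
  set Y := ‖∑ b ∈ range (2 ^ σ), ee ((X : ℝ) / 2 ^ v * b + t0)‖
  have h4 : Y * (2 * ((2 : ℝ) ^ ((2 * q + 2) * p) / 2 ^ σ)) ≤ 1 :=
    (mul_le_mul_of_nonneg_left (by linarith) h3).trans h2
  have h5 : Y * (2 : ℝ) ^ ((2 * q + 2) * p) ≤ 2 ^ σ := by
    have : Y * (2 : ℝ) ^ ((2 * q + 2) * p) = (Y * ((2 : ℝ) ^ ((2 * q + 2) * p) / 2 ^ σ)) * 2 ^ σ := by
      field_simp
    rw [this]
    have h6 : Y * ((2 : ℝ) ^ ((2 * q + 2) * p) / 2 ^ σ) ≤ 1 := by
      have : 0 ≤ Y * ((2 : ℝ) ^ ((2 * q + 2) * p) / 2 ^ σ) := by positivity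
      linarith
    nlinarith [show (0 : ℝ) < 2 ^ σ by positivity]
  have h7 : (1 : ℝ) ≤ (1 / 2) ^ ((2 * q + 1) * p) * 2 ^ ((2 * q + 2) * p) := by
    have : (2 * q + 2) * p = (2 * q + 1) * p + p := by ring
    rw [this, pow_add, ← mul_assoc, ← mul_pow]
    norm_num
    exact one_le_pow₀ (by norm_num)
  calc Y = Y * 1 := (mul_one Y).symm
    _ ≤ Y * ((1 / 2) ^ ((2 * q + 1) * p) * 2 ^ ((2 * q + 2) * p)) :=
        mul_le_mul_of_nonneg_left h7 h3
    _ = (1 / 2) ^ ((2 * q + 1) * p) * (Y * 2 ^ ((2 * q + 2) * p)) := by ring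
    _ ≤ _ := mul_le_mul_of_nonneg_left h5 (by positivity)

/-- a small real quantity -/
theorem tiny {x : ℝ} {A E m : ℕ} (hx : |x| ≤ 2 ^ A) (h : A + m ≤ E) :
    |x / 2 ^ E| ≤ (1 / 2) ^ m := by
  rw [abs_div, abs_of_pos (by positivity : (0 : ℝ) < 2 ^ E), div_le_iff₀ (by positivity)]
  refine hx.trans ?_
  obtain ⟨e, rfl⟩ := Nat.exists_eq_add_of_le h
  rw [show A + m + e = m + (A + e) by ring, pow_add 2 m, ← mul_assoc, ← mul_pow]
  norm_num
  exact pow_le_pow_right₀ (by norm_num) (by omega)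

theorem slo_eq {q : ℕ} (c : ℕ) (d e f r : Fin q → ℤ) (n : ℤ) (b : ℕ) (i : Fin q) :
    (slo c d e f r n b i : ℝ) = 4 * c * (b : ℝ) ^ 3 +
      (12 * c * ((n : ℝ) + r i) + 3 * d i) * (b : ℝ) ^ 2 +
      (12 * c * ((n : ℝ) + r i) ^ 2 + 6 * d i * ((n : ℝ) + r i) + 2 * e i) * b +
      (4 * c * ((n : ℝ) + r i) ^ 3 + 3 * d i * ((n : ℝ) + r i) ^ 2 + 2 * e i * ((n : ℝ) + r i)
        + f i) := by
  unfold slo dqua
  push_cast
  ring

theorem n5 (h0 : M0Stmt) (hg : GStmt) : Pool.Agent.H20.T4.N5Stmt := by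
  intro q c L g9 Cf hq1 hc1 hL
  refine ⟨(4 * 4 ^ (L + g9) + 1) * (4 * 2 ^ (L + g9)) * (1 + 4 + q),
    2 * (L + g9) + L + g9 + 20 + c + q + Cf, ?_⟩
  intro p hp uf σ R hσ hσu hR n hB3 d e f r hd hr is i' hne hB5
  have e1 : (20 * q + 20) * p = 20 * (q * p) + 20 * p := by ring
  have e2 : (60 * q + 60) * p = 60 * (q * p) + 60 * p := by ring
  have e3 : (2 * q + 1) * p = 2 * (q * p) + p := by ring
  have e4 : (2 * q + 3) * p = 2 * (q * p) + 3 * p := by ring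
  have e5 : (2 * q + 2) * p = 2 * (q * p) + 2 * p := by ring
  have e6 : (2 * q + 4) * p = 2 * (q * p) + 4 * p := by ring
  have e10 : (2 * 1 + 1) * p = 3 * p := by ring
  have hqp : p ≤ q * p := Nat.le_mul_of_pos_left p (by omega)
  have hvp : 2 * p ≤ uf + L := by omega
  have hx : (1 / 2 : ℝ) ^ ((2 * q + 1) * p) ≤ (1 / 2) ^ ((2 * 1 + 1) * p) :=
    pow_le_pow_of_le_one (by norm_num) (by norm_num) (by omega)
  apply ncom h0 hg q 1 hq1 hq1 {i'} (uf + L) (2 ^ (uf + L - 2 * p)) L g9 4 (by norm_num) p uf σ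
    (by omega) Nat.one_le_two_pow (nWv (uf + L) p (by omega)) (by omega) hL
  · rw [Finset.card_singleton, nW (uf + L) p hvp, pow_one]
  · rw [Finset.card_singleton, Nat.cast_one]
    refine (ntail q (uf + L) p hvp 1 zero_le_one).trans ?_
    have hq1' : (1 : ℝ) ≤ q := by exact_mod_cast hq1
    exact mul_le_mul hq1' hx (by positivity) (by positivity)
  intro K hK hKL tt htt httT a ha
  have hK2 := nK L g9 K hK
  have ha' : |a i'| ≤ 2 ^ ((2 * q + 3) * p) := ha i' (Finset.mem_singleton_self i')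
  have hcf : (c : ℝ) + Cf ≤ 2 ^ (c + Cf) := by exact_mod_cast (Nat.lt_two_pow_self (n := c + Cf)).le
  have hcn : (c : ℝ) ≤ 2 ^ c := by exact_mod_cast (Nat.lt_two_pow_self (n := c)).le
  have hc0 : (0 : ℝ) ≤ c := Nat.cast_nonneg c
  have hCf0 : (0 : ℝ) ≤ Cf := Nat.cast_nonneg Cf
  have haR : |(a i' : ℝ)| ≤ 2 ^ ((2 * q + 3) * p) := by exact_mod_cast ha'
  have hKR : |(K : ℝ)| ≤ 2 ^ (2 * (L + g9) + 1) := by exact_mod_cast hK2
  have hrR : ∀ i, |(r i : ℝ)| ≤ 2 ^ R := fun i => by exact_mod_cast hr i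
  have hdR : ∀ i, |(d i : ℝ)| ≤ Cf := fun i => by exact_mod_cast hd i
  have hone : ∀ m : ℕ, (1 : ℝ) ≤ 2 ^ m := fun m => one_le_pow₀ (by norm_num)
  have haK : |(a i' : ℝ)| + |(K : ℝ)| ≤ 2 ^ ((2 * q + 3) * p + (2 * (L + g9) + 2)) := by
    have h4 : (2 : ℝ) ^ ((2 * q + 3) * p + (2 * (L + g9) + 2)) =
        2 ^ ((2 * q + 3) * p) * (2 * 2 ^ (2 * (L + g9) + 1)) := by
      rw [pow_add]
      congr 1
      rw [pow_succ 2 (2 * (L + g9) + 1)]
      ring
    rw [h4]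
    have h2 := hone (2 * (L + g9) + 1)
    have h3 := hone ((2 * q + 3) * p)
    nlinarith
  -- natural `τ`
  have key : ∀ τ : ℕ, 1 ≤ τ → τ < 2 ^ ((2 * q + 2) * p) →
      ‖∑ b ∈ range (2 ^ σ), ee ((τ : ℝ) * ((∑ i ∈ {i'}, (a i : ℝ) * (slo c d e f r n b i : ℝ)) /
        2 ^ (uf + L) + (K : ℝ) * (slo c d e f r n b is : ℝ) / 2 ^ (uf + L)))‖ ≤
      4 * (1 / 2) ^ ((2 * 1 + 1) * p) * 2 ^ σ := by
    intro τ h1 h2
    have hτ : |(τ : ℝ)| ≤ 2 ^ ((2 * q + 2) * p) := by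
      rw [abs_of_nonneg (Nat.cast_nonneg τ)]
      exact_mod_cast h2.le
    have hb : ∀ b : ℕ, b < 2 ^ σ → |(b : ℝ)| ≤ 2 ^ σ := fun b hb => by
      rw [abs_of_nonneg (Nat.cast_nonneg b)]
      exact_mod_cast hb.le
    suffices hs : ‖∑ b ∈ range (2 ^ σ), ee ((τ : ℝ) * ((∑ i ∈ {i'}, (a i : ℝ) *
        (slo c d e f r n b i : ℝ)) / 2 ^ (uf + L) + (K : ℝ) * (slo c d e f r n b is : ℝ) /
        2 ^ (uf + L)))‖ ≤ 4 * (1 / 2) ^ ((2 * q + 1) * p) * 2 ^ σ by
      refine hs.trans ?_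
      gcongr
    by_cases hN : a i' + K = 0
    · -- the linear case
      have hai : (a i' : ℝ) = -K := by
        have : a i' = -K := by omega
        rw [this]
        push_cast
        ring
      set Δ : ℤ := del c (d is) (d i') (r is) (r i') with hΔ
      set Δ1 : ℤ := del1 c (d is) (d i') (e is) (e i') (r is) (r i') with hΔ1
      have hnb : ¬ small (uf + L) ((2 : ℤ) ^ (uf + L + (2 * q + 2) * p - σ))
          (τ * K * (2 * n * Δ + Δ1)) := fun hs => hB5 ⟨τ, K, h1, h2, hK, hKL, hs⟩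
      have hΔR : |(Δ : ℝ)| ≤ 2 ^ (5 + (c + Cf) + R) := by
        have e7 : (Δ : ℝ) = 12 * c * ((r is : ℝ) - r i') + 3 * ((d is : ℝ) - d i') := by
          rw [hΔ]; unfold del; push_cast; ring
        have e8 : (2 : ℝ) ^ (5 + (c + Cf) + R) = 32 * 2 ^ (c + Cf) * 2 ^ R := by
          rw [pow_add, pow_add]; norm_num
        have h3 : |(r is : ℝ) - r i'| ≤ 2 ^ R + 2 ^ R := by
          have := abs_sub (r is : ℝ) (r i')
          linarith [hrR is, hrR i']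
        have h4 : |(d is : ℝ) - d i'| ≤ Cf + Cf := by
          have := abs_sub (d is : ℝ) (d i')
          linarith [hdR is, hdR i']
        rw [e7, e8]
        have h5 : |12 * c * ((r is : ℝ) - r i') + 3 * ((d is : ℝ) - d i')| ≤
            12 * c * (2 ^ R + 2 ^ R) + 3 * (Cf + Cf) :=
          addb (mulb (mulb (numb (by norm_num)) (numb hc0)) h3) (mulb (numb (by norm_num)) h4)
        refine h5.trans ?_
        have h6 := hone R
        have h7 : (Cf : ℝ) ≤ Cf * 2 ^ R := le_mul_of_one_le_right hCf0 h6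
        have h8 : ((c : ℝ) + Cf) * 2 ^ R ≤ 2 ^ (c + Cf) * 2 ^ R :=
          mul_le_mul_of_nonneg_right hcf (by positivity)
        have h9 : 0 ≤ (c : ℝ) * 2 ^ R := by positivity
        nlinarith
      have happ := sum_approx (2 ^ σ) (fun b => (τ : ℝ) * ((∑ i ∈ {i'}, (a i : ℝ) *
          (slo c d e f r n b i : ℝ)) / 2 ^ (uf + L) + (K : ℝ) * (slo c d e f r n b is : ℝ) /
          2 ^ (uf + L)))
        (fun b => ((τ * K * (2 * n * Δ + Δ1) : ℤ) : ℝ) / 2 ^ (uf + L) * b +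
          (τ : ℝ) * K * ((4 * c * ((n : ℝ) + r is) ^ 3 + 3 * d is * ((n : ℝ) + r is) ^ 2 +
            2 * e is * ((n : ℝ) + r is) + f is) - (4 * c * ((n : ℝ) + r i') ^ 3 +
            3 * d i' * ((n : ℝ) + r i') ^ 2 + 2 * e i' * ((n : ℝ) + r i') + f i')) / 2 ^ (uf + L))
        ((1 / 2) ^ (3 + (2 * q + 1) * p)) (by
          intro b hbb
          have e7 : (τ : ℝ) * ((∑ i ∈ {i'}, (a i : ℝ) *
              (slo c d e f r n b i : ℝ)) / 2 ^ (uf + L) + (K : ℝ) * (slo c d e f r n b is : ℝ) /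
              2 ^ (uf + L)) - (((τ * K * (2 * n * Δ + Δ1) : ℤ) : ℝ) / 2 ^ (uf + L) * b +
              (τ : ℝ) * K * ((4 * c * ((n : ℝ) + r is) ^ 3 + 3 * d is * ((n : ℝ) + r is) ^ 2 +
              2 * e is * ((n : ℝ) + r is) + f is) - (4 * c * ((n : ℝ) + r i') ^ 3 +
              3 * d i' * ((n : ℝ) + r i') ^ 2 + 2 * e i' * ((n : ℝ) + r i') + f i')) /
              2 ^ (uf + L)) = ((τ : ℝ) * K * Δ * (b : ℝ) ^ 2) / 2 ^ (uf + L) := by
            rw [Finset.sum_singleton, hai, slo_eq, slo_eq, hΔ, hΔ1]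
            unfold del del1
            push_cast
            ring
          rw [e7]
          refine tiny (A := (2 * q + 2) * p + (2 * (L + g9) + 1) + (5 + (c + Cf) + R) + σ * 2) ?_
            (by omega)
          rw [pow_add, pow_add, pow_add 2 ((2 * q + 2) * p), pow_mul 2 σ 2]
          exact mulb (mulb (mulb hτ hKR) hΔR) (powb (hb b hbb) 2))
      refine happ.trans ?_
      have h3 := lin_sum q p σ (uf + L) (τ * K * (2 * n * Δ + Δ1)) (by omega) hnb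
        ((τ : ℝ) * K * ((4 * c * ((n : ℝ) + r is) ^ 3 + 3 * d is * ((n : ℝ) + r is) ^ 2 +
            2 * e is * ((n : ℝ) + r is) + f is) - (4 * c * ((n : ℝ) + r i') ^ 3 +
            3 * d i' * ((n : ℝ) + r i') ^ 2 + 2 * e i' * ((n : ℝ) + r i') + f i')) / 2 ^ (uf + L))
      have h4 : 8 * (1 / 2 : ℝ) ^ (3 + (2 * q + 1) * p) = (1 / 2) ^ ((2 * q + 1) * p) := by
        rw [pow_add]; ring
      rw [h4]
      push_cast at h3 ⊢
      have h5 : (0 : ℝ) < (1 / 2) ^ ((2 * q + 1) * p) * 2 ^ σ := by positivity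
      linarith
    · -- the quadratic case
      set X : ℤ := τ * 12 * c * n * (a i' + K) with hX
      have hnb : ∀ k : ℕ, 1 ≤ k → k < 2 ^ ((4 * q + 3) * p) →
          ¬ small (uf + L) ((2 : ℤ) ^ (uf + L + (4 * q + 4) * p - σ)) (2 * k * X) := by
        intro k hk1 hk2 hs
        refine hB3 ⟨k, τ, a i', K, hk1, hk2, h1, h2, ?_, hK, hKL, ?_, ?_⟩
        · exact ha'.trans (pow_le_pow_right₀ (by norm_num) (by omega))
        · rw [Nat.sub_self, pow_zero, one_mul]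
          exact hN
        · rw [Nat.sub_self, pow_zero, one_mul]
          convert hs using 1
          rw [hX]
          ring
      have hNR : |(a i' : ℝ) + K| ≤ 2 ^ ((2 * q + 3) * p + (2 * (L + g9) + 2)) :=
        (abs_add_le _ _).trans haK
      have hcoef : ∀ i, |12 * c * (r i : ℝ) + 3 * d i| ≤ 2 ^ (4 + (c + Cf) + R) := by
        intro i
        have h5 : |12 * c * (r i : ℝ) + 3 * d i| ≤ 12 * c * 2 ^ R + 3 * Cf :=
          addb (mulb (mulb (numb (by norm_num)) (numb hc0)) (hrR i))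
            (mulb (numb (by norm_num)) (hdR i))
        refine h5.trans ?_
        have e8 : (2 : ℝ) ^ (4 + (c + Cf) + R) = 16 * 2 ^ (c + Cf) * 2 ^ R := by
          rw [pow_add, pow_add]; norm_num
        rw [e8]
        have h6 := hone R
        have h7 : (Cf : ℝ) ≤ Cf * 2 ^ R := le_mul_of_one_le_right hCf0 h6
        have h8 : ((c : ℝ) + Cf) * 2 ^ R ≤ 2 ^ (c + Cf) * 2 ^ R :=
          mul_le_mul_of_nonneg_right hcf (by positivity)
        have h9 : 0 ≤ (c : ℝ) * 2 ^ R := by positivity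
        nlinarith
      have hco2 : |(a i' : ℝ) * (12 * c * (r i' : ℝ) + 3 * d i') + K * (12 * c * (r is : ℝ) + 3 * d is)| ≤
          2 ^ ((2 * q + 3) * p + (2 * (L + g9) + 2)) * 2 ^ (4 + (c + Cf) + R) := by
        refine (abs_add_le _ _).trans ?_
        rw [abs_mul, abs_mul]
        calc |(a i' : ℝ)| * |12 * c * (r i' : ℝ) + 3 * d i'| + |(K : ℝ)| * |12 * c * (r is : ℝ) + 3 * d is|
            ≤ |(a i' : ℝ)| * 2 ^ (4 + (c + Cf) + R) + |(K : ℝ)| * 2 ^ (4 + (c + Cf) + R) := by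
              gcongr
              · exact hcoef i'
              · exact hcoef is
          _ = (|(a i' : ℝ)| + |(K : ℝ)|) * 2 ^ (4 + (c + Cf) + R) := by ring
          _ ≤ _ := mul_le_mul_of_nonneg_right haK (by positivity)
      have happ := sum_approx (2 ^ σ) (fun b => (τ : ℝ) * ((∑ i ∈ {i'}, (a i : ℝ) *
          (slo c d e f r n b i : ℝ)) / 2 ^ (uf + L) + (K : ℝ) * (slo c d e f r n b is : ℝ) /
          2 ^ (uf + L)))
        (fun b => (X : ℝ) / 2 ^ (uf + L) * (b : ℝ) ^ 2 +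
          ((τ : ℝ) * (a i' * (12 * c * ((n : ℝ) + r i') ^ 2 + 6 * d i' * ((n : ℝ) + r i') + 2 * e i') +
            K * (12 * c * ((n : ℝ) + r is) ^ 2 + 6 * d is * ((n : ℝ) + r is) + 2 * e is)) /
              2 ^ (uf + L)) * b +
          (τ : ℝ) * (a i' * (4 * c * ((n : ℝ) + r i') ^ 3 + 3 * d i' * ((n : ℝ) + r i') ^ 2 +
            2 * e i' * ((n : ℝ) + r i') + f i') + K * (4 * c * ((n : ℝ) + r is) ^ 3 +
            3 * d is * ((n : ℝ) + r is) ^ 2 + 2 * e is * ((n : ℝ) + r is) + f is)) / 2 ^ (uf + L))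
        ((1 / 2) ^ (4 + (2 * q + 1) * p) + (1 / 2) ^ (4 + (2 * q + 1) * p)) (by
          intro b hbb
          have e7 : (τ : ℝ) * ((∑ i ∈ {i'}, (a i : ℝ) *
              (slo c d e f r n b i : ℝ)) / 2 ^ (uf + L) + (K : ℝ) * (slo c d e f r n b is : ℝ) /
              2 ^ (uf + L)) - ((X : ℝ) / 2 ^ (uf + L) * (b : ℝ) ^ 2 +
          ((τ : ℝ) * (a i' * (12 * c * ((n : ℝ) + r i') ^ 2 + 6 * d i' * ((n : ℝ) + r i') + 2 * e i') +
            K * (12 * c * ((n : ℝ) + r is) ^ 2 + 6 * d is * ((n : ℝ) + r is) + 2 * e is)) /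
              2 ^ (uf + L)) * b +
          (τ : ℝ) * (a i' * (4 * c * ((n : ℝ) + r i') ^ 3 + 3 * d i' * ((n : ℝ) + r i') ^ 2 +
            2 * e i' * ((n : ℝ) + r i') + f i') + K * (4 * c * ((n : ℝ) + r is) ^ 3 +
            3 * d is * ((n : ℝ) + r is) ^ 2 + 2 * e is * ((n : ℝ) + r is) + f is)) / 2 ^ (uf + L)) =
              (τ : ℝ) * (4 * c) * (a i' + K) * (b : ℝ) ^ 3 / 2 ^ (uf + L) +
              (τ : ℝ) * ((a i' : ℝ) * (12 * c * (r i' : ℝ) + 3 * d i') +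
                K * (12 * c * (r is : ℝ) + 3 * d is)) * (b : ℝ) ^ 2 / 2 ^ (uf + L) := by
            rw [Finset.sum_singleton, slo_eq, slo_eq, hX]
            push_cast
            ring
          rw [e7]
          refine (abs_add_le _ _).trans (add_le_add ?_ ?_)
          · refine tiny (A := (2 * q + 2) * p + (2 + c) + ((2 * q + 3) * p + (2 * (L + g9) + 2)) +
              σ * 3) ?_ (by omega)
            rw [pow_add, pow_add, pow_add 2 ((2 * q + 2) * p), pow_mul 2 σ 3]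
            refine mulb (mulb (mulb hτ ?_) hNR) (powb (hb b hbb) 3)
            rw [abs_of_nonneg (by positivity), pow_add]
            norm_num
            exact hcn
          · refine tiny (A := (2 * q + 2) * p + (((2 * q + 3) * p + (2 * (L + g9) + 2)) +
              (4 + (c + Cf) + R)) + σ * 2) ?_ (by omega)
            rw [pow_add, pow_add, pow_add 2 ((2 * q + 3) * p + (2 * (L + g9) + 2)), pow_mul 2 σ 2]
            exact mulb (mulb hτ hco2) (powb (hb b hbb) 2))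
      refine happ.trans ?_
      have h3 := quad_sum q p σ (uf + L) X hσ (by omega) hnb
        ((τ : ℝ) * (a i' * (12 * c * ((n : ℝ) + r i') ^ 2 + 6 * d i' * ((n : ℝ) + r i') + 2 * e i') +
            K * (12 * c * ((n : ℝ) + r is) ^ 2 + 6 * d is * ((n : ℝ) + r is) + 2 * e is)) /
              2 ^ (uf + L))
        ((τ : ℝ) * (a i' * (4 * c * ((n : ℝ) + r i') ^ 3 + 3 * d i' * ((n : ℝ) + r i') ^ 2 +
            2 * e i' * ((n : ℝ) + r i') + f i') + K * (4 * c * ((n : ℝ) + r is) ^ 3 +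
            3 * d is * ((n : ℝ) + r is) ^ 2 + 2 * e is * ((n : ℝ) + r is) + f is)) / 2 ^ (uf + L))
      have h4 : 8 * ((1 / 2 : ℝ) ^ (4 + (2 * q + 1) * p) + (1 / 2 : ℝ) ^ (4 + (2 * q + 1) * p)) =
          (1 / 2) ^ ((2 * q + 1) * p) := by
        rw [pow_add]; ring
      rw [h4]
      push_cast at h3 ⊢
      have h5 : (0 : ℝ) < (1 / 2) ^ ((2 * q + 1) * p) * 2 ^ σ := by positivity
      linarith
  rcases lt_or_gt_of_ne htt with hneg | hpos
  · obtain ⟨τ, hτ⟩ := Int.eq_ofNat_of_zero_le (show 0 ≤ -tt by omega)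
    have h1 : tt = -(τ : ℤ) := by omega
    have h2 := key τ (by omega) (by
      rw [h1, abs_neg, Nat.abs_cast] at httT
      exact_mod_cast httT)
    rw [← sum_neg_ee] at h2
    refine le_trans (le_of_eq ?_) h2
    congr 1
    apply Finset.sum_congr rfl
    intro b _
    congr 1
    rw [h1]
    push_cast
    ring
  · obtain ⟨τ, hτ⟩ := Int.eq_ofNat_of_zero_le hpos.le
    have h2 := key τ (by omega) (by
      rw [hτ, Nat.abs_cast] at httT
      exact_mod_cast httT)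
    refine le_trans (le_of_eq ?_) h2
    rw [hτ]
    norm_cast

end Pool.Agent.H48.T4
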