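import Pool.Agent.H59.T4.Gap

set_option linter.style.longLine false

/-!
# Project TM4 (MP_b6022c_nt), row TOP: directions of the top windows
-/

namespace Pool.Agent.H48.T4

open Finset Pool.Agent.H9.TC Pool.Agent.H20.T4 Pool.Agent.H59.T4

/-- The remainder: all terms of small real size. -/
def remt (c N s y d e f T : ℤ) : ℤ :=
  12 * c * T * N ^ 2 * s + 12 * c * T * N * y ^ 2 + 4 * c * T * y ^ 3
    + 6 * c * T ^ 2 * (N + y) ^ 2 + 4 * c * (N + y) * T ^ 3 + c * T ^ 4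
    + d * (3 * T * (N + y) ^ 2 + 3 * (N + y) * T ^ 2 + T ^ 3)
    + e * (2 * (N + y) * T + T ^ 2) + f * T

theorem top_identity (c D A n0 d e f g s x m h j : ℤ) :
    qua c d e f g (n0 + s + D * x + A * m + j * h) -
      qua c d e f g (n0 + s + D * x + A * m) =
    (j * (h * (4 * c * n0 ^ 3)) + (j * m) * (h * (12 * c * A * n0 ^ 2))
      + (j * m ^ 2) * (h * (12 * c * A ^ 2 * n0)) + (j * m ^ 3) * (h * (4 * c * A ^ 3)))
    + ((j * x) * (h * (12 * c * D * n0 ^ 2)) + (j * x * m) * (h * (24 * c * D * A * n0))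
      + (j * x * m ^ 2) * (h * (12 * c * D * A ^ 2)))
    + remt c (n0 + A * m) s (s + D * x) d e f (j * h) := by
  unfold qua remt
  ring

/-- Bound of the remainder. -/
theorem remt_le (c N s y d e f T P G S U Cf : ℤ) (hc : 0 ≤ c) (hP : 1 ≤ P) (hG : 1 ≤ G)
    (hU : 1 ≤ U) (hUS : U ≤ S) (hG3 : G ^ 3 ≤ P) (hU3 : U ^ 3 ≤ P) (hN : |N| ≤ 2 * P)
    (hs : |s| ≤ S) (hy : |y| ≤ G) (hT : |T| ≤ U)
    (hCf : 0 ≤ Cf) (hd : |d| ≤ Cf) (he : |e| ≤ Cf) (hf : |f| ≤ Cf) :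
    |remt c N s y d e f T| ≤ 200 * (c + Cf) * (P ^ 2 * S * U) := by
  unfold remt
  have hcc : |c| ≤ c := le_of_eq (abs_of_nonneg hc)
  have num : ∀ k : ℤ, 0 ≤ k → |k| ≤ k := fun k hk => le_of_eq (abs_of_nonneg hk)
  have hP0 : (0 : ℤ) ≤ P := by linarith
  have hG0 : (0 : ℤ) ≤ G := by linarith
  have hU0 : (0 : ℤ) ≤ U := by linarith
  have hS1 : (1 : ℤ) ≤ S := by linarith
  have hS0 : (0 : ℤ) ≤ S := by linarith
  have hG1 : G ≤ P := by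
    refine le_trans ?_ hG3
    calc G = G ^ 1 := (pow_one G).symm
      _ ≤ G ^ 3 := pow_le_pow_right₀ hG (by norm_num)
  have hG2 : G ^ 2 ≤ P := (pow_le_pow_right₀ hG (by norm_num)).trans hG3
  have hU1 : U ≤ P := by
    refine le_trans ?_ hU3
    calc U = U ^ 1 := (pow_one U).symm
      _ ≤ U ^ 3 := pow_le_pow_right₀ hU (by norm_num)
  have hU2 : U ^ 2 ≤ P := (pow_le_pow_right₀ hU (by norm_num)).trans hU3
  have hn : |N + y| ≤ 3 * P := (ab_add hN hy).trans (by linarith)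
  set X := P ^ 2 * S * U with hX
  have hX0 : 0 ≤ X := by positivity
  -- monomials
  have hPP : P ≤ P ^ 2 := by nlinarith
  have mPU : P ^ 2 * U ≤ X := by
    rw [hX]
    calc P ^ 2 * U = P ^ 2 * 1 * U := by ring
      _ ≤ P ^ 2 * S * U := by gcongr
  have m1 : P * G ^ 2 * U ≤ X := by
    refine le_trans ?_ mPU
    calc P * G ^ 2 * U ≤ P * P * U := by gcongr
      _ = P ^ 2 * U := by ring
  have m2 : G ^ 3 * U ≤ X := by
    refine le_trans ?_ mPU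
    calc G ^ 3 * U ≤ P * U := by gcongr
      _ ≤ P ^ 2 * U := by gcongr
  have m3 : P ^ 2 * U ^ 2 ≤ X := by
    rw [hX]
    calc P ^ 2 * U ^ 2 = P ^ 2 * U * U := by ring
      _ ≤ P ^ 2 * S * U := by gcongr
  have m3' : P ^ 2 ≤ X := by
    refine le_trans ?_ mPU
    calc P ^ 2 = P ^ 2 * 1 := by ring
      _ ≤ P ^ 2 * U := by gcongr
  have m4 : P * U ^ 3 ≤ X := by
    refine le_trans ?_ m3'
    calc P * U ^ 3 ≤ P * P := by gcongr
      _ = P ^ 2 := by ring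
  have m5 : U ^ 4 ≤ X := by
    refine le_trans ?_ m4
    calc U ^ 4 = U * U ^ 3 := by ring
      _ ≤ P * U ^ 3 := by gcongr
  have m6 : P * U ^ 2 ≤ X := by
    refine le_trans ?_ m3
    gcongr
  have m7 : U ^ 3 ≤ X := hU3.trans (hPP.trans m3')
  have m8 : P * U ≤ X := by
    refine le_trans ?_ mPU
    gcongr
  have m9 : U ^ 2 ≤ X := hU2.trans (hPP.trans m3')
  have m10 : U ≤ X := hU1.trans (hPP.trans m3')
  have h1 : |12 * c * T * N ^ 2 * s| ≤ 12 * c * U * (2 * P) ^ 2 * S :=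
    ab_mul (ab_mul (ab_mul (ab_mul (num 12 (by norm_num)) hcc) hT) (ab_pow hN 2)) hs
  have h2 : |12 * c * T * N * y ^ 2| ≤ 12 * c * U * (2 * P) * G ^ 2 :=
    ab_mul (ab_mul (ab_mul (ab_mul (num 12 (by norm_num)) hcc) hT) hN) (ab_pow hy 2)
  have h3 : |4 * c * T * y ^ 3| ≤ 4 * c * U * G ^ 3 :=
    ab_mul (ab_mul (ab_mul (num 4 (by norm_num)) hcc) hT) (ab_pow hy 3)
  have h4 : |6 * c * T ^ 2 * (N + y) ^ 2| ≤ 6 * c * U ^ 2 * (3 * P) ^ 2 :=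
    ab_mul (ab_mul (ab_mul (num 6 (by norm_num)) hcc) (ab_pow hT 2)) (ab_pow hn 2)
  have h5 : |4 * c * (N + y) * T ^ 3| ≤ 4 * c * (3 * P) * U ^ 3 :=
    ab_mul (ab_mul (ab_mul (num 4 (by norm_num)) hcc) hn) (ab_pow hT 3)
  have h6 : |c * T ^ 4| ≤ c * U ^ 4 := ab_mul hcc (ab_pow hT 4)
  have h7 : |d * (3 * T * (N + y) ^ 2 + 3 * (N + y) * T ^ 2 + T ^ 3)| ≤
      Cf * (3 * U * (3 * P) ^ 2 + 3 * (3 * P) * U ^ 2 + U ^ 3) :=
    ab_mul hd (ab_add (ab_add (ab_mul (ab_mul (num 3 (by norm_num)) hT) (ab_pow hn 2))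
      (ab_mul (ab_mul (num 3 (by norm_num)) hn) (ab_pow hT 2))) (ab_pow hT 3))
  have h8 : |e * (2 * (N + y) * T + T ^ 2)| ≤ Cf * (2 * (3 * P) * U + U ^ 2) :=
    ab_mul he (ab_add (ab_mul (ab_mul (num 2 (by norm_num)) hn) hT) (ab_pow hT 2))
  have h9 : |f * T| ≤ Cf * U := ab_mul hf hT
  have hsum := ab_add (ab_add (ab_add (ab_add (ab_add (ab_add (ab_add (ab_add h1 h2) h3) h4) h5)
    h6) h7) h8) h9
  refine hsum.trans ?_
  have c1 := mul_le_mul_of_nonneg_left m1 hc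
  have c2 := mul_le_mul_of_nonneg_left m2 hc
  have c3 := mul_le_mul_of_nonneg_left m3 hc
  have c4 := mul_le_mul_of_nonneg_left m4 hc
  have c5 := mul_le_mul_of_nonneg_left m5 hc
  have d1 := mul_le_mul_of_nonneg_left mPU hCf
  have d2 := mul_le_mul_of_nonneg_left m6 hCf
  have d3 := mul_le_mul_of_nonneg_left m7 hCf
  have d4 := mul_le_mul_of_nonneg_left m8 hCf
  have d5 := mul_le_mul_of_nonneg_left m9 hCf
  have d6 := mul_le_mul_of_nonneg_left m10 hCf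
  have q1 : 0 ≤ c * X := mul_nonneg hc hX0
  have q2 : 0 ≤ Cf * X := mul_nonneg hCf hX0
  have e1 : 12 * c * U * (2 * P) ^ 2 * S = 48 * (c * X) := by rw [hX]; ring
  have e2 : 12 * c * U * (2 * P) * G ^ 2 = 24 * (c * (P * G ^ 2 * U)) := by ring
  have e3 : 4 * c * U * G ^ 3 = 4 * (c * (G ^ 3 * U)) := by ring
  have e4 : 6 * c * U ^ 2 * (3 * P) ^ 2 = 54 * (c * (P ^ 2 * U ^ 2)) := by ring
  have e5 : 4 * c * (3 * P) * U ^ 3 = 12 * (c * (P * U ^ 3)) := by ring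
  have e7 : Cf * (3 * U * (3 * P) ^ 2 + 3 * (3 * P) * U ^ 2 + U ^ 3) =
      27 * (Cf * (P ^ 2 * U)) + 9 * (Cf * (P * U ^ 2)) + Cf * U ^ 3 := by ring
  have e8 : Cf * (2 * (3 * P) * U + U ^ 2) = 6 * (Cf * (P * U)) + Cf * U ^ 2 := by ring
  rw [e1, e2, e3, e4, e5, e7, e8]
  have e9 : 200 * (c + Cf) * X = 200 * (c * X) + 200 * (Cf * X) := by ring
  rw [e9]
  linarith

/-- The core estimate, for one point. -/
theorem top_point (c Cf g Z w a v lo ED D h m s x E K : ℕ) (ν : ℕ) (n0 : ℕ)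
    (d e f g' j : ℤ) (haw : a + w = ν)
    (hED : 2000 * w ≤ ED) (hν : 10 * ED ≤ ν) (hv : v = lo + w) (hlo : 2 * a + 480 * w ≤ lo)
    (hK : K = g + Z + Cf + 20) (hwK : 100 * (K + c) ≤ w)
    (hE : E + 4 = lo - g) (hD : D ≤ 2 ^ ED) (hn0 : n0 < 2 ^ ν)
    (hd : |d| ≤ Cf) (he : |e| ≤ Cf) (hf : |f| ≤ Cf)
    (hs : s < 2 ^ (400 * w + 1)) (hx : x < 2 ^ (18 * w + 1)) (hm : m ≤ 2 ^ w)
    (hj : |j| ≤ 2 ^ Z) (hh : h ≤ 2 ^ (71 * w))
    (h1 : small v ((2 : ℤ) ^ (v - (w + K))) (h * (4 * c * (n0 : ℤ) ^ 3)))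
    (h2 : small v ((2 : ℤ) ^ (v - (2 * w + K))) (h * (12 * c * 2 ^ a * (n0 : ℤ) ^ 2)))
    (h3 : small v ((2 : ℤ) ^ (v - (3 * w + K))) (h * (12 * c * (2 ^ a) ^ 2 * (n0 : ℤ))))
    (h4 : small v ((2 : ℤ) ^ (v - (4 * w + K))) (h * (4 * c * (2 ^ a) ^ 3)))
    (h5 : small v ((2 : ℤ) ^ (v - (19 * w + K))) (h * (12 * c * D * (n0 : ℤ) ^ 2)))
    (h6 : small v ((2 : ℤ) ^ (v - (20 * w + K))) (h * (24 * c * D * 2 ^ a * (n0 : ℤ))))
    (h7 : small v ((2 : ℤ) ^ (v - (21 * w + K))) (h * (12 * c * D * (2 ^ a) ^ 2))) :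
    small v ((2 : ℤ) ^ (lo - g))
      (qua c d e f g' (n0 + s + D * x + 2 ^ a * m + j * h)
        - qua c d e f g' (n0 + s + D * x + 2 ^ a * m)) := by
  rw [top_identity]
  have zs : |(s : ℤ)| ≤ 2 ^ (400 * w + 1) := by
    rw [abs_of_nonneg (Int.natCast_nonneg s)]
    exact_mod_cast hs.le
  have zx : |(x : ℤ)| ≤ 2 ^ (18 * w + 1) := by
    rw [abs_of_nonneg (Int.natCast_nonneg x)]
    exact_mod_cast hx.le
  have zm : |(m : ℤ)| ≤ 2 ^ w := by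
    rw [abs_of_nonneg (Int.natCast_nonneg m)]
    exact_mod_cast hm
  have zh : |(h : ℤ)| ≤ 2 ^ (71 * w) := by
    rw [abs_of_nonneg (Int.natCast_nonneg h)]
    exact_mod_cast hh
  have zD : |(D : ℤ)| ≤ 2 ^ ED := by
    rw [abs_of_nonneg (Int.natCast_nonneg D)]
    exact_mod_cast hD
  have zm2 : |(m : ℤ) ^ 2| ≤ 2 ^ (w + w) := by
    rw [pow_two]
    exact ab_mul2 zm zm
  have zm3 : |(m : ℤ) ^ 3| ≤ 2 ^ (w + w + w) := by
    rw [pow_succ]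
    exact ab_mul2 zm2 zm
  -- the terms
  have A1 : small v ((2 : ℤ) ^ E) (j * (h * (4 * c * (n0 : ℤ) ^ 3))) :=
    sm_mul hj h1 (by omega)
  have A2 : small v ((2 : ℤ) ^ E) ((j * m) * (h * (12 * c * 2 ^ a * (n0 : ℤ) ^ 2))) :=
    sm_mul (ab_mul2 hj zm) h2 (by omega)
  have A3 : small v ((2 : ℤ) ^ E) ((j * m ^ 2) * (h * (12 * c * (2 ^ a) ^ 2 * (n0 : ℤ)))) :=
    sm_mul (ab_mul2 hj zm2) h3 (by omega)
  have A4 : small v ((2 : ℤ) ^ E) ((j * m ^ 3) * (h * (4 * c * (2 ^ a) ^ 3))) :=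
    sm_mul (ab_mul2 hj zm3) h4 (by omega)
  have A5 : small v ((2 : ℤ) ^ E) ((j * x) * (h * (12 * c * D * (n0 : ℤ) ^ 2))) :=
    sm_mul (ab_mul2 hj zx) h5 (by omega)
  have A6 : small v ((2 : ℤ) ^ E) ((j * x * m) * (h * (24 * c * D * 2 ^ a * (n0 : ℤ)))) :=
    sm_mul (ab_mul2 (ab_mul2 hj zx) zm) h6 (by omega)
  have A7 : small v ((2 : ℤ) ^ E) ((j * x * m ^ 2) * (h * (12 * c * D * (2 ^ a) ^ 2))) :=
    sm_mul (ab_mul2 (ab_mul2 hj zx) zm2) h7 (by omega)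
  -- the remainder
  have A8 : small v ((2 : ℤ) ^ E) (remt c (n0 + 2 ^ a * m) s (s + D * x) d e f (j * h)) := by
    refine small_of_abs_le ?_
    have hN : |(n0 : ℤ) + 2 ^ a * m| ≤ 2 * 2 ^ ν := by
      have e1 : |(n0 : ℤ)| ≤ 2 ^ ν := by
        rw [abs_of_nonneg (Int.natCast_nonneg n0)]
        exact_mod_cast hn0.le
      have e2 : |(2 : ℤ) ^ a * m| ≤ 2 ^ (a + w) :=
        ab_mul2 (le_of_eq (abs_of_nonneg (by positivity))) zm
      rw [haw] at e2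
      exact (ab_add e1 e2).trans (le_of_eq (by ring))
    have hu : |(s : ℤ) + D * x| ≤ 2 ^ (ED + 19 * w) := by
      have e2 := ab_add (ab_le zs (show _ ≤ ED + 18 * w + 1 by omega))
        (ab_le (ab_mul2 zD zx) (show _ ≤ ED + 18 * w + 1 by omega))
      refine e2.trans ?_
      have e3 : (2 : ℤ) ^ (ED + 18 * w + 1) + 2 ^ (ED + 18 * w + 1) =
          2 ^ (ED + 18 * w + 1 + 1) := by
        rw [pow_succ _ (ED + 18 * w + 1)]
        ring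
      rw [e3]
      exact pow_le_pow_right₀ (by norm_num) (by omega)
    have hT : |j * h| ≤ 2 ^ (Z + 71 * w) := ab_mul2 hj zh
    have hG : (1 : ℤ) ≤ 2 ^ (ED + 19 * w) := one_le_pow₀ (by norm_num)
    have hP : (1 : ℤ) ≤ 2 ^ ν := one_le_pow₀ (by norm_num)
    have hU : (1 : ℤ) ≤ 2 ^ (Z + 71 * w) := one_le_pow₀ (by norm_num)
    have hUS : (2 : ℤ) ^ (Z + 71 * w) ≤ 2 ^ (400 * w + 1) :=
      pow_le_pow_right₀ (by norm_num) (by omega)
    have hG3 : ((2 : ℤ) ^ (ED + 19 * w)) ^ 3 ≤ 2 ^ ν := by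
      rw [← pow_mul]
      exact pow_le_pow_right₀ (by norm_num) (by omega)
    have hU3 : ((2 : ℤ) ^ (Z + 71 * w)) ^ 3 ≤ 2 ^ ν := by
      rw [← pow_mul]
      exact pow_le_pow_right₀ (by norm_num) (by omega)
    have hR := remt_le c (n0 + 2 ^ a * m) s (s + D * x) d e f (j * h) (2 ^ ν) (2 ^ (ED + 19 * w))
      (2 ^ (400 * w + 1)) (2 ^ (Z + 71 * w)) Cf
      (Int.natCast_nonneg c) hP hG hU hUS hG3 hU3 hN zs hu hT (Int.natCast_nonneg Cf) hd he hf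
    refine hR.trans ?_
    have hc1 : (200 : ℤ) * (c + Cf) ≤ 2 ^ (8 + (c + Cf)) := by
      have e1 := two_pow_ge (c + Cf)
      push_cast at e1
      rw [pow_add]
      have e2 : (0 : ℤ) ≤ 2 ^ (c + Cf) := by positivity
      nlinarith
    calc (200 : ℤ) * (c + Cf) * ((2 ^ ν) ^ 2 * 2 ^ (400 * w + 1) * 2 ^ (Z + 71 * w))
        ≤ 2 ^ (8 + (c + Cf)) * ((2 ^ ν) ^ 2 * 2 ^ (400 * w + 1) * 2 ^ (Z + 71 * w)) :=
          mul_le_mul_of_nonneg_right hc1 (by positivity)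
      _ = 2 ^ (8 + (c + Cf) + (ν * 2 + (400 * w + 1) + (Z + 71 * w))) := by
          rw [← pow_mul, ← pow_add, ← pow_add, ← pow_add]
      _ ≤ 2 ^ E := pow_le_pow_right₀ (by norm_num) (by omega)
  have B1 := small_add (small_add (small_add A1 A2) A3) A4
  have B2 := small_add (small_add A5 A6) A7
  have B3 := small_add (small_add B1 B2) A8
  refine small_mono ?_ B3
  have hpos : (0 : ℤ) < 2 ^ E := by positivity
  rw [← hE, pow_add]
  linarith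

/-- (TOP) -/
theorem top (hDIR : DIRStmt) : TOPStmt := by
  intro c Cf g Z kk hc
  refine ⟨100 * (g + Z + Cf + 20 + c), ?_⟩
  intro w hw ν a ED D haw hED hν hD1 hD n0 hn0 l hl1 hl2
  obtain ⟨l', rfl⟩ : ∃ l', l = l' + 1 := ⟨l - 1, by omega⟩
  have hl3 : 480 * w ≤ l' * w := Nat.mul_le_mul_right w (by omega)
  have hlo : 2 * a + (l' + 1 - 1) * w = 2 * a + l' * w := by simp
  have hv : 2 * a + (l' + 1) * w = 2 * a + l' * w + w := by ring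
  rw [hlo, hv]
  set lo := 2 * a + l' * w with hlodef
  have hlo2 : 2 * a + 480 * w ≤ lo := by omega
  set K := g + Z + Cf + 20 with hK
  set v := lo + w with hvdef
  obtain ⟨h, ht1, ht2, hx⟩ := hDIR 7 ![(4 * c * (n0 : ℤ) ^ 3), (12 * c * 2 ^ a * (n0 : ℤ) ^ 2),
    (12 * c * (2 ^ a) ^ 2 * (n0 : ℤ)), (4 * c * (2 ^ a) ^ 3), (12 * c * D * (n0 : ℤ) ^ 2),
    (24 * c * D * 2 ^ a * (n0 : ℤ)), (12 * c * D * (2 ^ a) ^ 2)] v
    ![w + K, 2 * w + K, 3 * w + K, 4 * w + K, 19 * w + K, 20 * w + K, 21 * w + K] (by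
      intro i
      fin_cases i <;> simp <;> omega)
  have h1 : small v ((2 : ℤ) ^ (v - (w + K))) (h * (4 * c * (n0 : ℤ) ^ 3)) := hx 0
  have h2 : small v ((2 : ℤ) ^ (v - (2 * w + K))) (h * (12 * c * 2 ^ a * (n0 : ℤ) ^ 2)) := hx 1
  have h3 : small v ((2 : ℤ) ^ (v - (3 * w + K))) (h * (12 * c * (2 ^ a) ^ 2 * (n0 : ℤ))) :=
    hx 2
  have h4 : small v ((2 : ℤ) ^ (v - (4 * w + K))) (h * (4 * c * (2 ^ a) ^ 3)) := hx 3
  have h5 : small v ((2 : ℤ) ^ (v - (19 * w + K))) (h * (12 * c * D * (n0 : ℤ) ^ 2)) := hx 4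
  have h6 : small v ((2 : ℤ) ^ (v - (20 * w + K))) (h * (24 * c * D * 2 ^ a * (n0 : ℤ))) := hx 5
  have h7 : small v ((2 : ℤ) ^ (v - (21 * w + K))) (h * (12 * c * D * (2 ^ a) ^ 2)) := hx 6
  have ht3 : h ≤ 2 ^ (71 * w) := by
    refine ht2.trans (Nat.pow_le_pow_right (by norm_num) ?_)
    simp only [Fin.sum_univ_succ, Matrix.cons_val_zero, Matrix.cons_val_succ, Fin.sum_univ_zero]
    simp
    omega
  refine ⟨h, ht1, ht3, ?_⟩
  intro d e f g' hd he hf hg' s hs x hx m hm j hj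
  exact top_point c Cf g Z w a v lo ED D h m s x (lo - g - 4) K ν n0 d e f g' j haw
    hED hν rfl hlo2 hK hw (by omega) hD hn0 hd he hf hs hx hm hj ht3
    h1 h2 h3 h4 h5 h6 h7

end Pool.Agent.H48.T4
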